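import Pool.Agent.KDD.Stmts
import Pool.Agent.Helper18_KDS.SHE

set_option autoImplicit false

/-! Row BAS of KDD. -/

namespace Pool.Agent.KDD.H17

open Polynomial NumberField H58Q Pool.Agent.SZT Pool.Agent.SZT.B Pool.Agent.KDT Pool.Agent.KDS

/-- `dup0` over a ring -/
def dup0R {R : Type} [CommRing R] (c : ℕ → R) (u : Fin 4 → R) : R :=
    8 * (u 2) ^ 3 * u 3 + 4 * c 4 * (u 2) ^ 4 - 4 * u 1 * u 2 * (u 3) ^ 2
      + 4 * c 3 * u 1 * (u 2) ^ 3 + 4 * u 0 * (u 3) ^ 3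
      - 4 * c 3 * u 0 * (u 2) ^ 2 * u 3 + 4 * c 2 * (u 1) ^ 2 * (u 2) ^ 2
      - 8 * c 2 * u 0 * u 1 * u 2 * u 3 - 8 * c 1 * u 0 * u 1 * (u 2) ^ 2
      + 4 * c 2 * (u 0) ^ 2 * (u 3) ^ 2 - 8 * c 1 * (u 0) ^ 2 * u 2 * u 3
      + 16 * c 0 * (u 0) ^ 2 * (u 2) ^ 2
      - 8 * c 4 * c 1 * (u 0) ^ 2 * (u 2) ^ 2 + 4 * c 1 * (u 1) ^ 3 * u 2
      - 4 * c 1 * u 0 * (u 1) ^ 2 * u 3 - 16 * c 0 * u 0 * (u 1) ^ 2 * u 2
      - 32 * c 0 * (u 0) ^ 2 * u 1 * u 3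
      - 4 * c 3 * c 1 * (u 0) ^ 2 * u 1 * u 2
      - 16 * c 4 * c 0 * (u 0) ^ 2 * u 1 * u 2
      + 4 * c 3 * c 1 * (u 0) ^ 3 * u 3
      - 16 * c 4 * c 0 * (u 0) ^ 3 * u 3
      - 16 * c 3 * c 0 * (u 0) ^ 3 * u 2 + 4 * c 0 * (u 1) ^ 4
      - 8 * c 3 * c 0 * (u 0) ^ 2 * (u 1) ^ 2 + 8 * (c 1) ^ 2 * (u 0) ^ 3 * u 1
      - 32 * c 2 * c 0 * (u 0) ^ 3 * u 1
      + 4 * (c 3) ^ 2 * c 0 * (u 0) ^ 4 + 4 * c 4 * (c 1) ^ 2 * (u 0) ^ 4
      - 16 * c 4 * c 2 * c 0 * (u 0) ^ 4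

/-- `dup1` over a ring -/
def dup1R {R : Type} [CommRing R] (c : ℕ → R) (u : Fin 4 → R) : R :=
    4 * (u 2) ^ 2 * (u 3) ^ 2 - 4 * c 3 * (u 2) ^ 4 + 4 * u 1 * (u 3) ^ 3
      + 8 * c 4 * u 1 * u 2 * (u 3) ^ 2 + 12 * c 3 * u 1 * (u 2) ^ 2 * u 3
      + 12 * c 3 * u 0 * u 2 * (u 3) ^ 2 + 16 * c 2 * u 0 * (u 2) ^ 2 * u 3
      + 8 * c 4 * c 3 * u 0 * (u 2) ^ 2 * u 3 + 16 * c 1 * u 0 * (u 2) ^ 3
      + 4 * (c 3) ^ 2 * u 0 * (u 2) ^ 3 + 8 * c 2 * (u 1) ^ 2 * u 2 * u 3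
      + 4 * c 1 * (u 1) ^ 2 * (u 2) ^ 2 + 8 * c 2 * u 0 * u 1 * (u 3) ^ 2
      + 16 * c 1 * u 0 * u 1 * u 2 * u 3
      + 16 * c 4 * c 2 * u 0 * u 1 * u 2 * u 3
      + 32 * c 0 * u 0 * u 1 * (u 2) ^ 2
      + 8 * c 3 * c 2 * u 0 * u 1 * (u 2) ^ 2
      + 16 * c 4 * c 1 * u 0 * u 1 * (u 2) ^ 2
      + 4 * c 1 * (u 0) ^ 2 * (u 3) ^ 2 - 16 * c 0 * (u 0) ^ 2 * u 2 * u 3
      + 8 * c 3 * c 2 * (u 0) ^ 2 * u 2 * u 3
      + 16 * c 4 * c 1 * (u 0) ^ 2 * u 2 * u 3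
      + 16 * (c 2) ^ 2 * (u 0) ^ 2 * (u 2) ^ 2
      - 24 * c 3 * c 1 * (u 0) ^ 2 * (u 2) ^ 2
      + 16 * (c 4) ^ 2 * c 1 * (u 0) ^ 2 * (u 2) ^ 2
      + 4 * c 1 * (u 1) ^ 3 * u 3 + 8 * c 0 * (u 1) ^ 3 * u 2
      + 8 * c 0 * u 0 * (u 1) ^ 2 * u 3 + 8 * c 4 * c 1 * u 0 * (u 1) ^ 2 * u 3
      + 12 * c 3 * c 1 * u 0 * (u 1) ^ 2 * u 2
      + 32 * c 4 * c 0 * u 0 * (u 1) ^ 2 * u 2
      + 12 * c 3 * c 1 * (u 0) ^ 2 * u 1 * u 3
      + 16 * c 4 * c 0 * (u 0) ^ 2 * u 1 * u 3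
      + 16 * c 2 * c 1 * (u 0) ^ 2 * u 1 * u 2
      - 40 * c 3 * c 0 * (u 0) ^ 2 * u 1 * u 2
      + 8 * c 4 * c 3 * c 1 * (u 0) ^ 2 * u 1 * u 2
      + 32 * (c 4) ^ 2 * c 0 * (u 0) ^ 2 * u 1 * u 2
      + 24 * c 3 * c 0 * (u 0) ^ 3 * u 3 + 16 * (c 1) ^ 2 * (u 0) ^ 3 * u 2
      - 32 * c 2 * c 0 * (u 0) ^ 3 * u 2
      + 4 * (c 3) ^ 2 * c 1 * (u 0) ^ 3 * u 2
      + 16 * c 4 * c 3 * c 0 * (u 0) ^ 3 * u 2
      + 16 * c 3 * c 0 * u 0 * (u 1) ^ 3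
      + 4 * (c 1) ^ 2 * (u 0) ^ 2 * (u 1) ^ 2
      + 16 * c 4 * c 3 * c 0 * (u 0) ^ 2 * (u 1) ^ 2
      + 16 * c 1 * c 0 * (u 0) ^ 3 * u 1
      + 16 * (c 3) ^ 2 * c 0 * (u 0) ^ 3 * u 1 + 16 * (c 0) ^ 2 * (u 0) ^ 4
      - 4 * c 3 * (c 1) ^ 2 * (u 0) ^ 4
      + 16 * c 3 * c 2 * c 0 * (u 0) ^ 4

/-- `dup2` over a ring -/
def dup2R {R : Type} [CommRing R] (c : ℕ → R) (u : Fin 4 → R) : R :=
    4 * u 2 * (u 3) ^ 3 + 4 * c 4 * (u 2) ^ 2 * (u 3) ^ 2 + 4 * c 3 * (u 2) ^ 3 * u 3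
      + 4 * c 2 * (u 2) ^ 4 + 8 * c 1 * u 1 * (u 2) ^ 3
      - 8 * c 1 * u 0 * (u 2) ^ 2 * u 3 - 16 * c 0 * u 0 * (u 2) ^ 3
      - 4 * c 1 * (u 1) ^ 2 * u 2 * u 3 + 12 * c 0 * (u 1) ^ 2 * (u 2) ^ 2
      - 4 * c 1 * u 0 * u 1 * (u 3) ^ 2 - 24 * c 0 * u 0 * u 1 * u 2 * u 3
      - 8 * c 4 * c 1 * u 0 * u 1 * u 2 * u 3
      - 4 * c 3 * c 1 * u 0 * u 1 * (u 2) ^ 2
      - 16 * c 4 * c 0 * u 0 * u 1 * (u 2) ^ 2
      - 12 * c 0 * (u 0) ^ 2 * (u 3) ^ 2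
      - 4 * c 3 * c 1 * (u 0) ^ 2 * u 2 * u 3
      - 16 * c 4 * c 0 * (u 0) ^ 2 * u 2 * u 3
      - 8 * c 2 * c 1 * (u 0) ^ 2 * (u 2) ^ 2
      + 24 * c 3 * c 0 * (u 0) ^ 2 * (u 2) ^ 2
      - 16 * (c 4) ^ 2 * c 0 * (u 0) ^ 2 * (u 2) ^ 2
      - 8 * c 0 * (u 1) ^ 3 * u 3 - 16 * c 4 * c 0 * u 0 * (u 1) ^ 2 * u 3
      - 24 * c 3 * c 0 * u 0 * (u 1) ^ 2 * u 2
      - 24 * c 3 * c 0 * (u 0) ^ 2 * u 1 * u 3
      - 8 * (c 1) ^ 2 * (u 0) ^ 2 * u 1 * u 2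
      - 16 * c 4 * c 3 * c 0 * (u 0) ^ 2 * u 1 * u 2
      + 8 * (c 1) ^ 2 * (u 0) ^ 3 * u 3 - 32 * c 2 * c 0 * (u 0) ^ 3 * u 3
      - 16 * c 1 * c 0 * (u 0) ^ 3 * u 2
      - 8 * (c 3) ^ 2 * c 0 * (u 0) ^ 3 * u 2 + 4 * (c 1) ^ 2 * u 0 * (u 1) ^ 3
      - 16 * c 2 * c 0 * u 0 * (u 1) ^ 3
      - 8 * c 1 * c 0 * (u 0) ^ 2 * (u 1) ^ 2
      + 4 * c 4 * (c 1) ^ 2 * (u 0) ^ 2 * (u 1) ^ 2
      - 16 * c 4 * c 2 * c 0 * (u 0) ^ 2 * (u 1) ^ 2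
      - 32 * (c 0) ^ 2 * (u 0) ^ 3 * u 1
      + 4 * c 3 * (c 1) ^ 2 * (u 0) ^ 3 * u 1
      - 16 * c 3 * c 2 * c 0 * (u 0) ^ 3 * u 1
      + 4 * c 2 * (c 1) ^ 2 * (u 0) ^ 4
      - 16 * (c 2) ^ 2 * c 0 * (u 0) ^ 4
      + 8 * c 3 * c 1 * c 0 * (u 0) ^ 4
      - 16 * c 4 * (c 0) ^ 2 * (u 0) ^ 4

/-- `dup3` over a ring -/
def dup3R {R : Type} [CommRing R] (c : ℕ → R) (u : Fin 4 → R) : R :=
    (u 3) ^ 4 - 2 * c 3 * (u 2) ^ 2 * (u 3) ^ 2 - 8 * c 2 * (u 2) ^ 3 * u 3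
      - 2 * c 1 * (u 2) ^ 4 + (c 3) ^ 2 * (u 2) ^ 4
      - 4 * c 4 * c 2 * (u 2) ^ 4 - 12 * c 1 * u 1 * (u 2) ^ 2 * u 3
      - 8 * c 0 * u 1 * (u 2) ^ 3 - 8 * c 4 * c 1 * u 1 * (u 2) ^ 3
      - 8 * c 0 * u 0 * (u 2) ^ 2 * u 3 - 4 * c 3 * c 1 * u 0 * (u 2) ^ 3
      - 16 * c 0 * (u 1) ^ 2 * u 2 * u 3
      - 2 * c 3 * c 1 * (u 1) ^ 2 * (u 2) ^ 2
      - 16 * c 4 * c 0 * (u 1) ^ 2 * (u 2) ^ 2
      + 8 * c 0 * u 0 * u 1 * (u 3) ^ 2 + 4 * c 3 * c 1 * u 0 * u 1 * u 2 * u 3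
      - 8 * c 3 * c 0 * u 0 * u 1 * (u 2) ^ 2
      - 2 * c 3 * c 1 * (u 0) ^ 2 * (u 3) ^ 2
      + 8 * c 4 * c 0 * (u 0) ^ 2 * (u 3) ^ 2
      + 16 * c 3 * c 0 * (u 0) ^ 2 * u 2 * u 3
      + 12 * (c 1) ^ 2 * (u 0) ^ 2 * (u 2) ^ 2
      - 32 * c 2 * c 0 * (u 0) ^ 2 * (u 2) ^ 2
      + 8 * c 4 * c 3 * c 0 * (u 0) ^ 2 * (u 2) ^ 2
      - 8 * c 3 * c 0 * (u 1) ^ 3 * u 2
      + 8 * c 3 * c 0 * u 0 * (u 1) ^ 2 * u 3
      - 12 * (c 1) ^ 2 * (u 0) ^ 2 * u 1 * u 3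
      + 48 * c 2 * c 0 * (u 0) ^ 2 * u 1 * u 3
      + 16 * c 1 * c 0 * (u 0) ^ 2 * u 1 * u 2
      + 8 * (c 3) ^ 2 * c 0 * (u 0) ^ 2 * u 1 * u 2
      - 8 * (c 3) ^ 2 * c 0 * (u 0) ^ 3 * u 3
      - 8 * c 4 * (c 1) ^ 2 * (u 0) ^ 3 * u 3
      + 32 * c 4 * c 2 * c 0 * (u 0) ^ 3 * u 3
      + 32 * (c 0) ^ 2 * (u 0) ^ 3 * u 2
      - 4 * c 3 * (c 1) ^ 2 * (u 0) ^ 3 * u 2
      + 16 * c 3 * c 2 * c 0 * (u 0) ^ 3 * u 2 + (c 1) ^ 2 * (u 1) ^ 4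
      - 4 * c 2 * c 0 * (u 1) ^ 4 + 16 * (c 0) ^ 2 * (u 0) ^ 2 * (u 1) ^ 2
      - 2 * c 3 * (c 1) ^ 2 * (u 0) ^ 2 * (u 1) ^ 2
      + 8 * c 3 * c 2 * c 0 * (u 0) ^ 2 * (u 1) ^ 2
      - 8 * c 2 * (c 1) ^ 2 * (u 0) ^ 3 * u 1
      + 32 * (c 2) ^ 2 * c 0 * (u 0) ^ 3 * u 1
      - 16 * c 3 * c 1 * c 0 * (u 0) ^ 3 * u 1
      + 32 * c 4 * (c 0) ^ 2 * (u 0) ^ 3 * u 1 - 2 * (c 1) ^ 3 * (u 0) ^ 4
      + 8 * c 2 * c 1 * c 0 * (u 0) ^ 4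
      - 16 * c 3 * (c 0) ^ 2 * (u 0) ^ 4
      + (c 3) ^ 2 * (c 1) ^ 2 * (u 0) ^ 4
      - 4 * (c 3) ^ 2 * c 2 * c 0 * (u 0) ^ 4
      - 4 * c 4 * c 2 * (c 1) ^ 2 * (u 0) ^ 4
      + 16 * c 4 * (c 2) ^ 2 * c 0 * (u 0) ^ 4
      - 8 * c 4 * c 3 * c 1 * c 0 * (u 0) ^ 4
      + 16 * (c 4) ^ 2 * (c 0) ^ 2 * (u 0) ^ 4

/-- `quart` over a ring -/
def quartR {R : Type} [CommRing R] (c : ℕ → R) (u : Fin 4 → R) : R :=
  ((u 1) ^ 2 - 4 * u 0 * u 2) * (u 3) ^ 2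
    - 2 * (2 * (u 0) ^ 3 * c 0 + (u 0) ^ 2 * u 1 * c 1
        + 2 * (u 0) ^ 2 * u 2 * c 2 + u 0 * u 1 * u 2 * c 3
        + 2 * u 0 * (u 2) ^ 2 * c 4 + u 1 * (u 2) ^ 2) * u 3
    + (-4 * (u 0) ^ 4 * c 0 * c 2 + (u 0) ^ 4 * (c 1) ^ 2
        - 4 * (u 0) ^ 3 * u 1 * c 0 * c 3
        - 2 * (u 0) ^ 3 * u 2 * c 1 * c 3
        - 4 * (u 0) ^ 2 * (u 1) ^ 2 * c 0 * c 4
        + 4 * (u 0) ^ 2 * u 1 * u 2 * c 0
        - 4 * (u 0) ^ 2 * u 1 * u 2 * c 1 * c 4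
        + 2 * (u 0) ^ 2 * (u 2) ^ 2 * c 1
        - 4 * (u 0) ^ 2 * (u 2) ^ 2 * c 2 * c 4
        + (u 0) ^ 2 * (u 2) ^ 2 * (c 3) ^ 2
        - 4 * u 0 * (u 1) ^ 3 * c 0
        - 4 * u 0 * (u 1) ^ 2 * u 2 * c 1
        - 4 * u 0 * u 1 * (u 2) ^ 2 * c 2
        - 2 * u 0 * (u 2) ^ 3 * c 3 + (u 2) ^ 4)

/-- all components -/
def dupR {R : Type} [CommRing R] (c : ℕ → R) (u : Fin 4 → R) : Fin 4 → R :=
  ![dup0R c u, dup1R c u, dup2R c u, dup3R c u]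

/-- `uni (shc f a)` over a ring -/
def ushR {R : Type} [CommRing R] (c : ℕ → R) (a : R) (u : Fin 4 → R) : Fin 4 → R :=
  ![u 0, u 1 + (-2 * a) * u 0, u 2 + (-a) * u 1 + a ^ 2 * u 0,
    u 3 + (-2 * a) * u 2 + a ^ 2 * u 1 + (-(4 * a ^ 3 + 2 * c 4 * a ^ 2 + c 3 * a)) * u 0]

theorem dup_eq {K : Type} [Field K] (f : K[X]) (u : Fin 4 → K) :
    dup f u = dupR (fun i => f.coeff i) u := rfl

theorem quart_eq {K : Type} [Field K] (f : K[X]) (u : Fin 4 → K) :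
    quart f u = quartR (fun i => f.coeff i) u := rfl

theorem ush_eq {K : Type} [Field K] (f : K[X]) (a : K) (u : Fin 4 → K) :
    uni (shc f a) u = ushR (fun i => f.coeff i) a u := rfl

theorem map_dupR {R S : Type} [CommRing R] [CommRing S] (φ : R →+* S) (c : ℕ → R)
    (u : Fin 4 → R) (l : Fin 4) :
    φ (dupR c u l) = dupR (fun i => φ (c i)) (fun i => φ (u i)) l := by
  fin_cases l
  · simp only [dupR, Fin.zero_eta, Fin.isValue, Matrix.cons_val_zero, dup0R, map_add, map_sub,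
      map_mul, map_pow, map_ofNat, map_neg]
  · simp only [dupR, Fin.mk_one, Fin.isValue, Matrix.cons_val_one, Matrix.cons_val_zero, dup1R,
      map_add, map_sub, map_mul, map_pow, map_ofNat, map_neg]
  · simp only [dupR, Fin.reduceFinMk, Fin.isValue, Matrix.cons_val, dup2R,
      map_add, map_sub, map_mul, map_pow, map_ofNat, map_neg]
  · simp only [dupR, Fin.reduceFinMk, Fin.isValue, Matrix.cons_val, dup3R,
      map_add, map_sub, map_mul, map_pow, map_ofNat, map_neg]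

theorem map_quartR {R S : Type} [CommRing R] [CommRing S] (φ : R →+* S) (c : ℕ → R)
    (u : Fin 4 → R) :
    φ (quartR c u) = quartR (fun i => φ (c i)) (fun i => φ (u i)) := by
  simp only [quartR, map_add, map_sub, map_mul, map_pow, map_ofNat, map_neg]

theorem map_ushR {R S : Type} [CommRing R] [CommRing S] (φ : R →+* S) (c : ℕ → R) (a : R)
    (u : Fin 4 → R) (l : Fin 4) :
    φ (ushR c a u l) = ushR (fun i => φ (c i)) (φ a) (fun i => φ (u i)) l := by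
  fin_cases l <;>
  simp only [ushR, Fin.zero_eta, Fin.mk_one, Fin.reduceFinMk, Fin.isValue, Matrix.cons_val,
    Matrix.cons_val_zero, Matrix.cons_val_one, map_add, map_sub, map_mul, map_pow, map_ofNat,
    map_neg]

theorem dupR_smul {R : Type} [CommRing R] (c : ℕ → R) (t : R) (u : Fin 4 → R) (l : Fin 4) :
    dupR c (fun i => t * u i) l = t ^ 4 * dupR c u l := by
  fin_cases l
  · simp only [dupR, Fin.zero_eta, Fin.isValue, Matrix.cons_val_zero, dup0R]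
    ring
  · simp only [dupR, Fin.mk_one, Fin.isValue, Matrix.cons_val_one, Matrix.cons_val_zero, dup1R]
    ring
  · simp only [dupR, Fin.reduceFinMk, Fin.isValue, Matrix.cons_val, dup2R]
    ring
  · simp only [dupR, Fin.reduceFinMk, Fin.isValue, Matrix.cons_val, dup3R]
    ring

theorem quartR_smul {R : Type} [CommRing R] (c : ℕ → R) (t : R) (u : Fin 4 → R) :
    quartR c (fun i => t * u i) = t ^ 4 * quartR c u := by
  simp only [quartR]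
  ring

theorem ushR_smul {R : Type} [CommRing R] (c : ℕ → R) (a t : R) (u : Fin 4 → R) (l : Fin 4) :
    ushR c a (fun i => t * u i) l = t * ushR c a u l := by
  fin_cases l <;>
  simp only [ushR, Fin.zero_eta, Fin.mk_one, Fin.reduceFinMk, Fin.isValue, Matrix.cons_val,
    Matrix.cons_val_zero, Matrix.cons_val_one] <;> ring

/-! ### the residue field side -/

open scoped Classical in
theorem dvd_card {k : Type} [Field k] (ρ : Fin 5 → k) (x : k) (m : ℕ)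
    (h : (X - C x) ^ m ∣ ∏ i, (X - C (ρ i))) :
    m ≤ (Finset.univ.filter fun i => ρ i = x).card := by
  have h0 : (∏ i, (X - C (ρ i))) ≠ 0 := Finset.prod_ne_zero_iff.mpr fun i _ => X_sub_C_ne_zero _
  have h1 := (le_rootMultiplicity_iff h0).mpr h
  have h2 : (∏ i, (X - C (ρ i))).roots = Finset.univ.val.map ρ := by
    have h3 := roots_multiset_prod_X_sub_C (Finset.univ.val.map ρ)
    rw [Multiset.map_map] at h3
    exact h3
  rw [← count_roots, h2, Multiset.count_map] at h1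
  refine h1.trans (le_of_eq ?_)
  have h4 : (Finset.univ.filter fun i => x = ρ i) = Finset.univ.filter fun i => ρ i = x := by
    ext i
    simp [eq_comm]
  rw [← h4, ← Finset.card_val, Finset.filter_val]

theorem shift_prod {k : Type} [Field k] (ρ : Fin 5 → k) (e : k) :
    (∏ i, (X - C (ρ i))).comp (X + C e) = ∏ i, (X - C (ρ i - e)) := by
  rw [prod_comp]
  refine Finset.prod_congr rfl fun i _ => ?_
  rw [sub_comp, X_comp, C_comp, C_sub]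
  ring

theorem prod_monic {k : Type} [Field k] (ρ : Fin 5 → k) : (∏ i, (X - C (ρ i))).Monic :=
  monic_prod_of_monic _ _ fun i _ => monic_X_sub_C _

theorem prod_deg {k : Type} [Field k] (ρ : Fin 5 → k) :
    (∏ i, (X - C (ρ i))).natDegree = 5 := by
  rw [natDegree_prod_of_monic _ _ fun i _ => monic_X_sub_C _]
  simp

theorem ush_zero {k : Type} [Field k] (c : ℕ → k) (a : k) (u : Fin 4 → k)
    (h : ∀ l, ushR c a u l = 0) : ∀ l, u l = 0 := by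
  have h0 : u 0 = 0 := h 0
  have h1 : u 1 + (-2 * a) * u 0 = 0 := h 1
  have h2 : u 2 + (-a) * u 1 + a ^ 2 * u 0 = 0 := h 2
  have h3 : u 3 + (-2 * a) * u 2 + a ^ 2 * u 1 +
    (-(4 * a ^ 3 + 2 * c 4 * a ^ 2 + c 3 * a)) * u 0 = 0 := h 3
  rw [h0] at h1 h2 h3
  have h1' : u 1 = 0 := by simpa using h1
  rw [h1'] at h2 h3
  have h2' : u 2 = 0 := by simpa using h2
  rw [h2'] at h3
  have h3' : u 3 = 0 := by simpa using h3
  intro l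
  fin_cases l
  · exact h0
  · exact h1'
  · exact h2'
  · exact h3'

theorem uni_zero {k : Type} [Field k] (f : k[X]) (a : k) (u : Fin 4 → k)
    (h : ∀ l, uni (shc f a) u l = 0) : ∀ l, u l = 0 :=
  ush_zero (fun i => f.coeff i) a u fun l => by
    rw [← ush_eq]
    exact h l

theorem core (hQ : QdiStatement) (hS : SheStatement) {k : Type} [Field k] (ρ : Fin 5 → k)
    (u : Fin 4 → k) (h2 : (2 : k) ≠ 0)
    (h3 : ∀ a b c, a ≠ b → a ≠ c → b ≠ c → ρ a = ρ b → ρ a ≠ ρ c) (a b : Fin 5) (hab : a ≠ b)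
    (he : ρ a = ρ b) (hq : quart (∏ i, (X - C (ρ i))) u = 0)
    (hd : ∀ l, dup (∏ i, (X - C (ρ i))) u l = 0) :
    ∃ a b, a ≠ b ∧ ρ a = ρ b ∧ uni (shc (∏ i, (X - C (ρ i))) (ρ a)) u 2 = 0 ∧
      uni (shc (∏ i, (X - C (ρ i))) (ρ a)) u 3 = 0 := by
  classical
  obtain ⟨gm, gd, -, gq, gu⟩ := hS k (∏ i, (X - C (ρ i))) (ρ a) (prod_monic ρ) (prod_deg ρ)
  have hsh := shift_prod ρ (ρ a)
  obtain ⟨c4, c3, -⟩ := Pool.Agent.KDS.H18.coeff_shift (∏ i, (X - C (ρ i))) (ρ a)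
    (prod_monic ρ) (prod_deg ρ)
  set F := ∏ i, (X - C (ρ i)) with hF
  have hdup : ∀ l, dup (F.comp (X + C (ρ a))) (uni (shc F (ρ a)) u) l = 0 := by
    intro l
    rw [gu u hq]
    have h0 : dup F u = fun _ => 0 := funext hd
    rw [h0, ush_eq]
    fin_cases l <;> simp [ushR]
  have hX2 : X ^ 2 ∣ F.comp (X + C (ρ a)) := by
    rw [hsh]
    have h4 : (∏ i ∈ ({a, b} : Finset (Fin 5)), (X - C (ρ i - ρ a))) ∣
        ∏ i, (X - C (ρ i - ρ a)) :=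
      Finset.prod_dvd_prod_of_subset _ _ _ (Finset.subset_univ _)
    rw [Finset.prod_pair hab, ← he] at h4
    simpa [sq] using h4
  have hc := X_pow_dvd_iff.mp hX2
  have hsp : (F.comp (X + C (ρ a))).Splits := by
    rw [hsh]
    exact Splits.prod fun i _ => Splits.X_sub_C _
  have hcube : ∀ x : k, ¬ (X - C x) ^ 3 ∣ F.comp (X + C (ρ a)) := by
    intro x hx
    rw [hsh] at hx
    have h5 := dvd_card _ _ _ hx
    obtain ⟨i, hi, j, hj, l, hl, hij, hil, hjl⟩ := Finset.two_lt_card.mp h5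
    simp only [Finset.mem_filter, Finset.mem_univ, true_and] at hi hj hl
    have e1 : ρ i = ρ j := by linear_combination hi - hj
    have e2 : ρ i = ρ l := by linear_combination hi - hl
    exact h3 i j l hij hil hjl e1 e2
  rcases hQ k (F.comp (X + C (ρ a))) (uni (shc F (ρ a)) u) h2 gm gd (hc 0 (by norm_num))
    (hc 1 (by norm_num)) hsp hcube hdup with h | ⟨x, -, hx2, hu2, hu3⟩
  · exact ⟨a, b, hab, he, h.1, h.2⟩
  · rw [hsh] at hx2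
    have h5 := dvd_card _ _ _ hx2
    obtain ⟨i, hi, j, hj, hij⟩ := Finset.one_lt_card.mp h5
    simp only [Finset.mem_filter, Finset.mem_univ, true_and] at hi hj
    have e1 : ρ i = ρ j := by linear_combination hi - hj
    have e2 : ρ i = ρ a + x := by linear_combination hi
    refine ⟨i, j, hij, e1, ?_, ?_⟩
    · rw [ush_eq] at hu2 ⊢
      rw [e2]
      have q : ∀ (c c' : ℕ → k), ushR c' x (ushR c (ρ a) u) 2 = ushR c (ρ a + x) u 2 := by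
        intro c c'
        simp only [ushR, Fin.isValue, Matrix.cons_val, Matrix.cons_val_zero, Matrix.cons_val_one]
        ring
      rw [← q _ (fun i => (F.comp (X + C (ρ a))).coeff i), ← ush_eq] 
      exact hu2
    · rw [ush_eq] at hu3 ⊢
      rw [e2]
      have q : ∀ (c c' : ℕ → k), c' 4 = c 4 + 5 * ρ a →
          c' 3 = c 3 + 4 * ρ a * c 4 + 10 * ρ a ^ 2 →
          ushR c' x (ushR c (ρ a) u) 3 = ushR c (ρ a + x) u 3 := by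
        intro c c' h4' h3'
        simp only [ushR, Fin.isValue, Matrix.cons_val, Matrix.cons_val_zero, Matrix.cons_val_one]
        rw [h4', h3']
        ring
      rw [← q (fun i => F.coeff i) (fun i => (F.comp (X + C (ρ a))).coeff i) c4 c3, ← ush_eq]
      exact hu3

/-! ### the valuation ring -/

section

variable {E : Type} [Field E] (w : AbsoluteValue E ℝ) (hna : IsNonarchimedean w)

/-- the valuation ring -/
def Ow : Subring E where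
  carrier := {x | w x ≤ 1}
  mul_mem' := fun {x y} hx hy => by
    have hx' : w x ≤ 1 := hx
    have hy' : w y ≤ 1 := hy
    show w (x * y) ≤ 1
    rw [map_mul]
    exact mul_le_one₀ hx' (w.nonneg y) hy'
  one_mem' := by
    show w 1 ≤ 1
    rw [map_one]
  add_mem' := fun {x y} hx hy => (hna x y).trans (max_le hx hy)
  zero_mem' := by
    show w 0 ≤ 1
    rw [map_zero]
    norm_num
  neg_mem' := fun {x} hx => by
    show w (-x) ≤ 1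
    rw [w.map_neg]
    exact hx

/-- the maximal ideal -/
def mw : Ideal (Ow w hna) where
  carrier := {x | w x.1 < 1}
  add_mem' := fun {x y} hx hy => (hna x.1 y.1).trans_lt (max_lt hx hy)
  zero_mem' := by
    show w 0 < 1
    rw [map_zero]
    norm_num
  smul_mem' := fun c {x} hx => by
    show w (c.1 * x.1) < 1
    rw [map_mul]
    calc w c.1 * w x.1 ≤ 1 * w x.1 := mul_le_mul_of_nonneg_right c.2 (w.nonneg _)
      _ < 1 := by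
        rw [one_mul]
        exact hx

theorem mw_max : (mw w hna).IsMaximal := by
  rw [Ideal.isMaximal_iff]
  refine ⟨fun h => ?_, fun J x hJ hx hxJ => ?_⟩
  · have h1 : w 1 < 1 := h
    rw [map_one] at h1
    exact lt_irrefl _ h1
  · have h1 : w x.1 = 1 := le_antisymm x.2 (not_lt.mp hx)
    have h2 : w (x.1)⁻¹ ≤ 1 := by
      rw [map_inv₀, h1]
      simp
    have h3 : x.1 ≠ 0 := fun h => by
      rw [h, map_zero] at h1
      norm_num at h1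
    have h4 : (⟨x.1⁻¹, h2⟩ : Ow w hna) * x = 1 := Subtype.ext (inv_mul_cancel₀ h3)
    rw [← h4]
    exact J.mul_mem_left _ hxJ

end

/-- **Row BAS.** -/
theorem bas (hQ : QdiStatement) (hS : SheStatement) : BasStatement := by
  intro E _ w θ u m₁ hna hw2 hθ htr hcl hq hd
  obtain ⟨a₀, b₀, hab₀, hcl₀⟩ := hcl
  obtain ⟨m, hm⟩ := Finite.exists_max fun l => w (u l)
  have hm1 : 0 < w (u m₁) := by
    have h1 : 0 < w (u m₁) ^ 4 := lt_of_le_of_lt (w.nonneg _) (hd 0)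
    rcases (w.nonneg (u m₁)).lt_or_eq with h | h
    · exact h
    · rw [← h] at h1
      norm_num at h1
  have hmp : 0 < w (u m) := hm1.trans_le (hm m₁)
  have hm0 : u m ≠ 0 := fun h => by
    rw [h, map_zero] at hmp
    exact lt_irrefl _ hmp
  haveI hmax : (mw w hna).IsMaximal := mw_max w hna
  letI : Field (Ow w hna ⧸ mw w hna) := Ideal.Quotient.field _
  have hker : ∀ x : Ow w hna, Ideal.Quotient.mk (mw w hna) x = 0 ↔ w x.1 < 1 := fun x =>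
    Ideal.Quotient.eq_zero_iff_mem
  set π : Ow w hna →+* Ow w hna ⧸ mw w hna := Ideal.Quotient.mk (mw w hna) with hπ
  let θ' : Fin 5 → Ow w hna := fun i => ⟨θ i, hθ i⟩
  have hv : ∀ l, w ((u m)⁻¹ * u l) ≤ 1 := fun l => by
    rw [map_mul, map_inv₀, inv_mul_le_iff₀ hmp, mul_one]
    exact hm l
  let v' : Fin 4 → Ow w hna := fun l => ⟨(u m)⁻¹ * u l, hv l⟩
  let F' : (Ow w hna)[X] := ∏ i, (X - C (θ' i))
  have hF1 : F'.map (Ow w hna).subtype = ∏ i, (X - C (θ i)) := by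
    simp only [F', Polynomial.map_prod, Polynomial.map_sub, map_X, map_C]
    rfl
  have hF2 : F'.map π = ∏ i, (X - C (π (θ' i))) := by
    simp only [F', Polynomial.map_prod, Polynomial.map_sub, map_X, map_C]
  have c1 : ∀ i, (Ow w hna).subtype (F'.coeff i) = (∏ i, (X - C (θ i)) : E[X]).coeff i :=
    fun i => by rw [← hF1, coeff_map]
  have c2 : ∀ i, π (F'.coeff i) = (∏ i, (X - C (π (θ' i)))).coeff i :=
    fun i => by rw [← hF2, coeff_map]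
  have hdup : ∀ l, dup (∏ i, (X - C (π (θ' i)))) (fun i => π (v' i)) l = 0 := by
    intro l
    rw [dup_eq]
    have e1 := map_dupR π (fun i => F'.coeff i) v' l
    simp only [c2] at e1
    rw [← e1, hker]
    have e2 := map_dupR (Ow w hna).subtype (fun i => F'.coeff i) v' l
    simp only [c1] at e2
    have e3 : ((dupR (fun i => F'.coeff i) v' l : Ow w hna) : E) =
      (Ow w hna).subtype (dupR (fun i => F'.coeff i) v' l) := rfl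
    rw [e3, e2]
    have e4 : (fun i => (Ow w hna).subtype (v' i)) = fun i => (u m)⁻¹ * u i := rfl
    rw [e4, dupR_smul, map_mul, map_pow, map_inv₀, inv_pow, inv_mul_lt_iff₀ (pow_pos hmp 4),
      mul_one]
    exact (hd l).trans_le (pow_le_pow_left₀ (w.nonneg _) (hm m₁) 4)
  have hquart : quart (∏ i, (X - C (π (θ' i)))) (fun i => π (v' i)) = 0 := by
    rw [quart_eq]
    have e1 := map_quartR π (fun i => F'.coeff i) v'
    simp only [c2] at e1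
    rw [← e1, hker]
    have e2 := map_quartR (Ow w hna).subtype (fun i => F'.coeff i) v'
    simp only [c1] at e2
    have e3 : ((quartR (fun i => F'.coeff i) v' : Ow w hna) : E) =
      (Ow w hna).subtype (quartR (fun i => F'.coeff i) v') := rfl
    have e4 : (fun i => (Ow w hna).subtype (v' i)) = fun i => (u m)⁻¹ * u i := rfl
    rw [quart_eq] at hq
    rw [e3, e2, e4, quartR_smul, hq, mul_zero, map_zero]
    norm_num
  have h2 : (2 : Ow w hna ⧸ mw w hna) ≠ 0 := by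
    intro h
    have e1 : π 2 = 0 := by rw [map_ofNat, h]
    rw [hker] at e1
    have e2 : w 2 < 1 := e1
    rw [hw2] at e2
    exact lt_irrefl _ e2
  have hclose : ∀ a b, π (θ' a) = π (θ' b) ↔ w (θ a - θ b) < 1 := by
    intro a b
    rw [← sub_eq_zero, ← map_sub, hker]
    exact Iff.rfl
  have h3 : ∀ a b c, a ≠ b → a ≠ c → b ≠ c → π (θ' a) = π (θ' b) → π (θ' a) ≠ π (θ' c) := by
    intro a b c hab hac hbc h h'
    rw [hclose] at h h'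
    exact absurd (htr a b c hab hac hbc h) h'.ne
  obtain ⟨a, b, hab, he, hu2, hu3⟩ := core hQ hS (fun i => π (θ' i)) (fun i => π (v' i)) h2 h3
    a₀ b₀ hab₀ ((hclose a₀ b₀).mpr hcl₀) hquart hdup
  refine ⟨a, b, hab, (hclose a b).mp he, ?_⟩
  have key : ∀ l, uni (shc (∏ i, (X - C (π (θ' i)))) (π (θ' a))) (fun i => π (v' i)) l = 0 ↔
      w (uni (shc (∏ i, (X - C (θ i))) (θ a)) u l) < w (u m) := by
    intro l
    rw [ush_eq, ush_eq]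
    have e1 := map_ushR π (fun i => F'.coeff i) (θ' a) v' l
    simp only [c2] at e1
    rw [← e1, hker]
    have e2 := map_ushR (Ow w hna).subtype (fun i => F'.coeff i) (θ' a) v' l
    simp only [c1] at e2
    have e3 : ((ushR (fun i => F'.coeff i) (θ' a) v' l : Ow w hna) : E) =
      (Ow w hna).subtype (ushR (fun i => F'.coeff i) (θ' a) v' l) := rfl
    have e4 : (fun i => (Ow w hna).subtype (v' i)) = fun i => (u m)⁻¹ * u i := rfl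
    have e5 : (Ow w hna).subtype (θ' a) = θ a := rfl
    rw [e3, e2, e4, e5, ushR_smul, map_mul, map_inv₀, inv_mul_lt_iff₀ hmp, mul_one]
  have hall : ∃ l, uni (shc (∏ i, (X - C (π (θ' i)))) (π (θ' a))) (fun i => π (v' i)) l ≠ 0 := by
    by_contra hcon
    push Not at hcon
    have h5 : π (v' m) = 0 := by
      refine uni_zero _ _ _ hcon m
    rw [hker] at h5
    have h6 : w ((u m)⁻¹ * u m) < 1 := h5
    rw [inv_mul_cancel₀ hm0, map_one] at h6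
    exact lt_irrefl _ h6
  obtain ⟨l, hl⟩ := hall
  have hl' : w (u m) ≤ w (uni (shc (∏ i, (X - C (θ i))) (θ a)) u l) := by
    rw [Ne, key] at hl
    exact not_lt.mp hl
  exact ⟨l, ((key 2).mp hu2).trans_le hl', ((key 3).mp hu3).trans_le hl'⟩

end Pool.Agent.KDD.H17
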